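import Mathlib

namespace Pool.Agent.P.MP_2c7719_nt

/-- the even quartic -/
def fq (A y : ℤ) : ℤ := y ^ 4 + A * y ^ 2

/-- target of the core lemma -/
def Coll (A M ρ L : ℤ) : Prop :=
  ∃ y1 y2 y3 y4 : ℤ, M ∣ y1 - ρ ∧ M ∣ y2 - ρ ∧ M ∣ y3 - ρ ∧ M ∣ y4 - ρ ∧
    L ≤ y2 ∧ y2 < y1 ∧ L ≤ y4 ∧ y4 < y3 ∧ y1 ≠ y3 ∧
    fq A y1 + fq A y2 = fq A y3 + fq A y4

theorem runge (g1 g0 r1 r0 V : ℤ) (h1 : r1 ≠ 0) (hV : |g1| + |g0| + |r1| + |r0| < V) :
    0 < (81 * V ^ 2 + g1 * V + g0) ^ 2 + (r1 * V + r0) ∧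
      ¬ IsSquare ((81 * V ^ 2 + g1 * V + g0) ^ 2 + (r1 * V + r0)) := by
  have a1 := abs_nonneg g1
  have a2 := abs_nonneg g0
  have a3 : 1 ≤ |r1| := Int.one_le_abs h1
  have a4 := abs_nonneg r0
  have b1 := neg_abs_le g1
  have b2 := neg_abs_le g0
  have b3 := neg_abs_le r1
  have b4 := neg_abs_le r0
  have c3 := le_abs_self r1
  have c4 := le_abs_self r0
  have hV1 : 1 ≤ V := by linarith
  set g := 81 * V ^ 2 + g1 * V + g0 with hg
  set R := r1 * V + r0 with hR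
  have hg1 : 79 * V ^ 2 ≤ g := by
    have : -V * V ≤ g1 * V := mul_le_mul_of_nonneg_right (by linarith) (by linarith)
    nlinarith
  have hR1 : R ≤ 2 * V ^ 2 := by
    have : r1 * V ≤ V * V := mul_le_mul_of_nonneg_right (by linarith) (by linarith)
    nlinarith
  have hR2 : -(2 * V ^ 2) ≤ R := by
    have : -V * V ≤ r1 * V := mul_le_mul_of_nonneg_right (by linarith) (by linarith)
    nlinarith
  have hR0 : R ≠ 0 := by
    intro h0
    have e : r1 * V = -r0 := by linarith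
    have e2 : |r1| * V = |r0| := by
      have := congrArg abs e
      rwa [abs_mul, abs_neg, abs_of_nonneg (by linarith : (0:ℤ) ≤ V)] at this
    nlinarith
  have hV2 : 1 ≤ V ^ 2 := by nlinarith
  have hg2 : 1 ≤ g := by linarith
  refine ⟨by nlinarith, ?_⟩
  rintro ⟨s, hs⟩
  have hs' : g ^ 2 + R = |s| ^ 2 := by rw [sq_abs]; linarith
  have hs0 := abs_nonneg s
  set t := |s|
  rcases lt_trichotomy t g with h | h | h
  · have : t ^ 2 ≤ (g - 1) ^ 2 := pow_le_pow_left₀ hs0 (by linarith) 2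
    nlinarith
  · rw [h] at hs'; exact hR0 (by linarith)
  · have : (g + 1) ^ 2 ≤ t ^ 2 := pow_le_pow_left₀ (by linarith) (by linarith) 2
    nlinarith

theorem pell (D M : ℤ) (hM : 0 < M) (hD : 0 < 729 * D) (hs : ¬ IsSquare (729 * D)) :
    ∃ x z : ℤ, 0 < x ∧ 0 < z ∧ M ∣ x - 1 ∧ M ∣ z ∧ x ^ 2 - D * z ^ 2 = 1 := by
  have hD0 : 0 < D := by linarith
  have hs2 : ¬ IsSquare (D * M ^ 2) := by
    rintro ⟨s, h⟩
    apply hs
    rw [← Rat.isSquare_intCast_iff]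
    refine ⟨27 * s / M, ?_⟩
    have hM' : (M : ℚ) ≠ 0 := by exact_mod_cast hM.ne'
    have h' : (D : ℚ) * M ^ 2 = s * s := by exact_mod_cast h
    push_cast
    field_simp
    linear_combination 729 * h'
  obtain ⟨x, y, hxy, hy⟩ := Pell.exists_of_not_isSquare (by positivity) hs2
  have hy2 : 0 < y ^ 2 := by positivity
  have hx : x ≠ 0 := by
    rintro rfl
    have : 0 < D * M ^ 2 * y ^ 2 := by positivity
    nlinarith
  refine ⟨1 + 2 * D * M ^ 2 * y ^ 2, 2 * |x| * |y| * M, by positivity, ?_, ⟨2 * D * M * y ^ 2, by ring⟩,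
    ⟨2 * |x| * |y|, by ring⟩, ?_⟩
  · have := abs_pos.mpr hx
    have := abs_pos.mpr hy
    positivity
  · have e : (2 * |x| * |y| * M) ^ 2 = 4 * x ^ 2 * y ^ 2 * M ^ 2 := by
      rw [mul_pow, mul_pow, mul_pow, sq_abs, sq_abs]; ring
    rw [e]
    linear_combination (-4 * D * y ^ 2 * M ^ 2) * hxy

theorem ident (A u w U W r h : ℤ) (hU : U = 2 * u ^ 2 + A) (hW : W = 2 * w ^ 2 + A) :
    fq A (u * r + (u * U + w * W) * h) + fq A (w * r - (u * U - w * W) * h)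
      - fq A (u * r + (u * U - w * W) * h) - fq A (w * r + (u * U + w * W) * h)
    = 8 * u * w * (u ^ 2 - w ^ 2) * r * h * (A * r ^ 2 + 3 * U * W * r * h
      + (A * (U - W) ^ 2 - (U + W) * (U ^ 2 - 3 * U * W + W ^ 2)) * h ^ 2 - A) := by
  subst hU hW
  unfold fq
  ring

theorem disc (A w j U W V J : ℤ) (hU : U = 2 * (w + j) ^ 2 + A) (hW : W = 2 * w ^ 2 + A)
    (hV : V = (w + j) ^ 2 + w ^ 2 + A) (hJ : J = j ^ 2) :
    729 * ((3 * U * W) ^ 2 - 4 * A * (A * (U - W) ^ 2 - (U + W) * (U ^ 2 - 3 * U * W + W ^ 2)))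
    = (81 * V ^ 2 + (-9 * (4 * A + 18 * J)) * V + (450 * A * J + 81 * J ^ 2 - 8 * A ^ 2)) ^ 2
      + ((288 * A * (243 * J ^ 2 - 180 * A * J - 2 * A ^ 2)) * V
        + (729 * (16 * A ^ 2 * (J * (2 * A + J)) + 9 * (J * (2 * A + J)) ^ 2)
          - (450 * A * J + 81 * J ^ 2 - 8 * A ^ 2) ^ 2)) := by
  subst hU hW hV hJ
  ring

theorem ineqs (K w j U W r h z : ℤ) (hK : 0 ≤ K) (hw : 3 * K + 1 ≤ w) (hj : 1 ≤ j) (hjw : j ≤ w)
    (hW : w ^ 2 ≤ W) (hUW : W ≤ U) (hz : 1 ≤ z) (hr : 3 * U * W * z ≤ r)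
    (hh1 : -(2 * K * z) ≤ h) (hh2 : h ≤ 2 * K * z) :
    w ≤ w * r - ((w + j) * U - w * W) * h ∧
    w * r - ((w + j) * U - w * W) * h < (w + j) * r + ((w + j) * U + w * W) * h ∧
    w ≤ w * r + ((w + j) * U + w * W) * h ∧
    w * r + ((w + j) * U + w * W) * h < (w + j) * r + ((w + j) * U - w * W) * h := by
  have hw1 : 1 ≤ w := by linarith
  have hWw : w ≤ W := by nlinarith
  have hW1 : 1 ≤ W := by linarith
  have hU1 : 1 ≤ U := by linarith
  have hUz : 1 ≤ U * z := by nlinarith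
  have hWz : 1 ≤ W * z := by nlinarith
  have hr0 : 0 ≤ r := le_trans (by positivity) hr
  have hwW : w * W ≤ w * U := mul_le_mul_of_nonneg_left hUW (by linarith)
  have hjU : j * U ≤ w * U := mul_le_mul_of_nonneg_right hjw (by linarith)
  have hjU0 : 0 ≤ j * U := by positivity
  have hwW0 : 0 ≤ w * W := by positivity
  have hKz : 0 ≤ 2 * K * z := by positivity
  have hwr : w * (3 * U * W * z) ≤ w * r := mul_le_mul_of_nonneg_left hr (by linarith)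
  have hjr : r ≤ j * r := by nlinarith
  have k1 : w * (U * z) * 1 ≤ w * (U * z) * (3 * W - 8 * K) :=
    mul_le_mul_of_nonneg_left (by linarith) (by positivity)
  have k2 : w * 1 ≤ w * (U * z) := mul_le_mul_of_nonneg_left hUz (by linarith)
  have k3 : 1 ≤ 3 * W - 8 * K * w := by nlinarith
  refine ⟨?_, ?_, ?_, ?_⟩
  · have e1 : ((w + j) * U - w * W) * h ≤ ((w + j) * U - w * W) * (2 * K * z) :=
      mul_le_mul_of_nonneg_left hh2 (by linarith)
    have e2 : ((w + j) * U - w * W) * (2 * K * z) ≤ (4 * w * U) * (2 * K * z) :=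
      mul_le_mul_of_nonneg_right (by linarith) hKz
    linarith
  · have e1 : (2 * (w + j) * U) * (-(2 * K * z)) ≤ (2 * (w + j) * U) * h :=
      mul_le_mul_of_nonneg_left hh1 (by positivity)
    have e2 : (2 * (w + j) * U) * (2 * K * z) ≤ (4 * w * U) * (2 * K * z) :=
      mul_le_mul_of_nonneg_right (by linarith) hKz
    have e3 : (U * z) * 1 ≤ (U * z) * (3 * W - 8 * K * w) :=
      mul_le_mul_of_nonneg_left k3 (by linarith)
    linarith
  · have e1 : ((w + j) * U + w * W) * (-(2 * K * z)) ≤ ((w + j) * U + w * W) * h :=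
      mul_le_mul_of_nonneg_left hh1 (by positivity)
    have e2 : ((w + j) * U + w * W) * (2 * K * z) ≤ (4 * w * U) * (2 * K * z) :=
      mul_le_mul_of_nonneg_right (by linarith) hKz
    linarith
  · have e1 : (2 * w * W) * h ≤ (2 * w * W) * (2 * K * z) :=
      mul_le_mul_of_nonneg_left hh2 (by positivity)
    have hKw : 0 ≤ K * w := by positivity
    have e3 : (W * z) * 1 ≤ (W * z) * (3 * U - 4 * K * w) :=
      mul_le_mul_of_nonneg_left (by linarith) (by linarith)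
    linarith

theorem coll_ne (A M ρ L : ℤ) (hA : A ≠ 0) (hM : 0 < M) : Coll A M ρ L := by
  obtain ⟨K, hK⟩ : ∃ K, K = |A| := ⟨_, rfl⟩
  have hK1 : 1 ≤ K := hK ▸ Int.one_le_abs hA
  have hA1 : -K ≤ A := hK ▸ neg_abs_le A
  have hA2 : A ≤ K := hK ▸ le_abs_self A
  obtain ⟨j, hj⟩ : ∃ j, j = M * (K + 1) := ⟨_, rfl⟩
  have hj1 : K + 1 ≤ j := by
    have : 1 * (K + 1) ≤ M * (K + 1) := mul_le_mul_of_nonneg_right (by linarith) (by linarith)
    linarith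
  obtain ⟨J, hJ⟩ : ∃ J, J = j ^ 2 := ⟨_, rfl⟩
  have hJ1 : K + 1 ≤ J := by
    have : j ≤ j ^ 2 := le_self_pow₀ (by linarith) (by norm_num)
    linarith
  obtain ⟨g1, hg1⟩ : ∃ g, g = -9 * (4 * A + 18 * J) := ⟨_, rfl⟩
  obtain ⟨g0, hg0⟩ : ∃ g, g = 450 * A * J + 81 * J ^ 2 - 8 * A ^ 2 := ⟨_, rfl⟩
  obtain ⟨r1, hr1⟩ : ∃ g, g = 288 * A * (243 * J ^ 2 - 180 * A * J - 2 * A ^ 2) := ⟨_, rfl⟩
  obtain ⟨r0, hr0⟩ : ∃ g, g = 729 * (16 * A ^ 2 * (J * (2 * A + J)) + 9 * (J * (2 * A + J)) ^ 2)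
          - (450 * A * J + 81 * J ^ 2 - 8 * A ^ 2) ^ 2 := ⟨_, rfl⟩
  have hr1' : r1 ≠ 0 := by
    rw [hr1]
    refine mul_ne_zero (mul_ne_zero (by norm_num) hA) (ne_of_gt ?_)
    have h1 : A * J ≤ J * J := mul_le_mul_of_nonneg_right (by linarith) (by linarith)
    have h2 : A ^ 2 ≤ J ^ 2 := by
      apply sq_le_sq'
      · linarith
      · linarith
    have h3 : 0 < J ^ 2 := pow_pos (by linarith) 2
    linarith
  obtain ⟨Bd, hBd⟩ : ∃ B, B = |g1| + |g0| + |r1| + |r0| + |L| + 3 * K + 1 + j := ⟨_, rfl⟩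
  have p1 := abs_nonneg g1
  have p2 := abs_nonneg g0
  have p3 := abs_nonneg r1
  have p4 := abs_nonneg r0
  have p5 := abs_nonneg L
  have p6 := le_abs_self L
  have p7 := abs_nonneg ρ
  have p8 := neg_abs_le ρ
  obtain ⟨w, hw⟩ : ∃ w, w = ρ + M * (|ρ| + Bd) := ⟨_, rfl⟩
  have hwB : Bd ≤ w := by
    have : 1 * (|ρ| + Bd) ≤ M * (|ρ| + Bd) := mul_le_mul_of_nonneg_right (by linarith) (by linarith)
    linarith
  obtain ⟨U, hU⟩ : ∃ U, U = 2 * (w + j) ^ 2 + A := ⟨_, rfl⟩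
  obtain ⟨W, hW⟩ : ∃ U, U = 2 * w ^ 2 + A := ⟨_, rfl⟩
  obtain ⟨V, hV⟩ : ∃ U, U = (w + j) ^ 2 + w ^ 2 + A := ⟨_, rfl⟩
  have hw1 : 1 ≤ w := by linarith
  have hw2 : w ≤ w ^ 2 := le_self_pow₀ hw1 (by norm_num)
  have hw3 : w ^ 2 ≤ (w + j) ^ 2 := pow_le_pow_left₀ (by linarith) (by linarith) 2
  have hd := disc A w j U W V J hU hW hV hJ
  rw [← hr0, ← hg1, ← hg0, ← hr1] at hd
  obtain ⟨hpos, hns⟩ := runge g1 g0 r1 r0 V hr1' (by linarith)
  rw [← hd] at hpos hns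
  obtain ⟨x, z, hx, hz, hx1, hz1, hxz⟩ := pell _ M hM hpos hns
  have hWw : w ^ 2 ≤ W := by linarith
  have hUW : W ≤ U := by linarith
  obtain ⟨r, hr⟩ : ∃ r, r = x + 3 * U * W * z := ⟨_, rfl⟩
  obtain ⟨h, hh⟩ : ∃ h, h = -2 * A * z := ⟨_, rfl⟩
  have hh1 : -(2 * K * z) ≤ h := by
    have := mul_le_mul_of_nonneg_right hA2 hz.le
    rw [hh]; linarith
  have hh2 : h ≤ 2 * K * z := by
    have := mul_le_mul_of_nonneg_right hA1 hz.le
    rw [hh]; linarith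
  obtain ⟨i1, i2, i3, i4⟩ := ineqs K w j U W r h z (by linarith) (by linarith) (by linarith)
    (by linarith) hWw hUW (by linarith) (by linarith) hh1 hh2
  have hid := ident A (w + j) w U W r h hU hW
  have hq : A * r ^ 2 + 3 * U * W * r * h
      + (A * (U - W) ^ 2 - (U + W) * (U ^ 2 - 3 * U * W + W ^ 2)) * h ^ 2 - A = 0 := by
    rw [hr, hh]
    linear_combination A * hxz
  rw [hq, mul_zero] at hid
  have dw : M ∣ w - ρ := ⟨|ρ| + Bd, by rw [hw]; ring⟩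
  have dj : M ∣ j := ⟨K + 1, hj⟩
  have dr : M ∣ r - 1 := by
    have : r - 1 = (x - 1) + 3 * U * W * z := by rw [hr]; ring
    rw [this]; exact dvd_add hx1 (Dvd.dvd.mul_left hz1 _)
  have dh : M ∣ h := by rw [hh]; exact Dvd.dvd.mul_left hz1 _
  have key : ∀ a c : ℤ, M ∣ a - ρ → M ∣ a * r + c * h - ρ := by
    intro a c ha
    have : a * r + c * h - ρ = a * (r - 1) + c * h + (a - ρ) := by ring
    rw [this]
    exact dvd_add (dvd_add (Dvd.dvd.mul_left dr _) (Dvd.dvd.mul_left dh _)) ha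
  have du : M ∣ w + j - ρ := by
    have : w + j - ρ = (w - ρ) + j := by ring
    rw [this]; exact dvd_add dw dj
  refine ⟨(w + j) * r + ((w + j) * U + w * W) * h, w * r - ((w + j) * U - w * W) * h,
    (w + j) * r + ((w + j) * U - w * W) * h, w * r + ((w + j) * U + w * W) * h,
    key _ _ du, ?_, key _ _ du, key _ _ dw, by linarith, i2, by linarith, i4, ?_, by linarith⟩
  · have := key w (-((w + j) * U - w * W)) dw
    convert this using 1
    ring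
  · intro e
    have e' : 2 * w * W * h = 0 := by linarith
    have h0 : h ≠ 0 := by
      rw [hh]; exact mul_ne_zero (mul_ne_zero (by norm_num) hA) hz.ne'
    have : 2 * w * W ≠ 0 := by
      have : 0 < W := by linarith
      positivity
    exact mul_ne_zero this h0 e'

/-- a rational curve of degree 13 on the surface through the point (1,1,1,1) -/
def z1 (a b : ℤ) : ℤ := a^13 + a^12*b + 2*a^11*b^2 - 4*a^10*b^3 - 3*a^9*b^4 + 3*a^8*b^5
  + 7*a^7*b^6 + 4*a^6*b^7 - 12*a^5*b^8 - 6*a^4*b^9 + 5*a^3*b^10 - a^2*b^11 + a*b^12 + b^13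
def z2 (a b : ℤ) : ℤ := a^13 - a^12*b - a^11*b^2 - 5*a^10*b^3 - 6*a^9*b^4 + 12*a^8*b^5
  + 4*a^7*b^6 - 7*a^6*b^7 + 3*a^5*b^8 + 3*a^4*b^9 - 4*a^3*b^10 - 2*a^2*b^11 + a*b^12 - b^13
def z3 (a b : ℤ) : ℤ := a^13 + a^12*b - a^11*b^2 + 5*a^10*b^3 - 6*a^9*b^4 - 12*a^8*b^5
  + 4*a^7*b^6 + 7*a^6*b^7 + 3*a^5*b^8 - 3*a^4*b^9 - 4*a^3*b^10 + 2*a^2*b^11 + a*b^12 + b^13
def z4 (a b : ℤ) : ℤ := a^13 - a^12*b + 2*a^11*b^2 + 4*a^10*b^3 - 3*a^9*b^4 - 3*a^8*b^5
  + 7*a^7*b^6 - 4*a^6*b^7 - 12*a^5*b^8 + 6*a^4*b^9 + 5*a^3*b^10 + a^2*b^11 + a*b^12 - b^13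

theorem zid (a b : ℤ) : z1 a b ^ 4 + z2 a b ^ 4 = z3 a b ^ 4 + z4 a b ^ 4 := by
  unfold z1 z2 z3 z4
  ring

theorem coll_zero (M ρ L : ℤ) (hM : 0 < M) : Coll 0 M ρ L := by
  have q2 : 0 < z2 (10 * M + 1) M := by unfold z2; ring_nf; positivity
  have q4 : 0 < z4 (10 * M + 1) M := by unfold z4; ring_nf; positivity
  have q12 : 0 < z1 (10 * M + 1) M - z2 (10 * M + 1) M := by unfold z1 z2; ring_nf; positivity
  have q34 : 0 < z3 (10 * M + 1) M - z4 (10 * M + 1) M := by unfold z3 z4; ring_nf; positivity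
  have q13 : 0 < z1 (10 * M + 1) M - z3 (10 * M + 1) M := by unfold z1 z3; ring_nf; positivity
  have hm : ((M : ℤ) : ZMod M.natAbs) = 0 := by
    rw [ZMod.intCast_zmod_eq_zero_iff_dvd]; simp
  have conv : ∀ t : ℤ, ((t : ℤ) : ZMod M.natAbs) = 1 → M ∣ t - 1 := by
    intro t ht
    have : ((t - 1 : ℤ) : ZMod M.natAbs) = 0 := by push_cast; rw [ht]; simp
    rw [ZMod.intCast_zmod_eq_zero_iff_dvd] at this
    simpa using this
  have d1 : M ∣ z1 (10 * M + 1) M - 1 := conv _ (by unfold z1; push_cast; simp [hm])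
  have d2 : M ∣ z2 (10 * M + 1) M - 1 := conv _ (by unfold z2; push_cast; simp [hm])
  have d3 : M ∣ z3 (10 * M + 1) M - 1 := conv _ (by unfold z3; push_cast; simp [hm])
  have d4 : M ∣ z4 (10 * M + 1) M - 1 := conv _ (by unfold z4; push_cast; simp [hm])
  have hid := zid (10 * M + 1) M
  generalize z1 (10 * M + 1) M = Z1 at *
  generalize z2 (10 * M + 1) M = Z2 at *
  generalize z3 (10 * M + 1) M = Z3 at *
  generalize z4 (10 * M + 1) M = Z4 at *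
  have p5 := abs_nonneg L
  have p6 := le_abs_self L
  have p7 := abs_nonneg ρ
  have p8 := neg_abs_le ρ
  obtain ⟨w, hw⟩ : ∃ w, w = ρ + M * (|ρ| + |L| + 1) := ⟨_, rfl⟩
  have hwB : |L| + 1 ≤ w := by
    have : 1 * (|ρ| + |L| + 1) ≤ M * (|ρ| + |L| + 1) :=
      mul_le_mul_of_nonneg_right (by linarith) (by linarith)
    linarith
  have dw : M ∣ w - ρ := ⟨|ρ| + |L| + 1, by rw [hw]; ring⟩
  have key : ∀ Z : ℤ, M ∣ Z - 1 → M ∣ w * Z - ρ := by
    intro Z hZ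
    have : w * Z - ρ = w * (Z - 1) + (w - ρ) := by ring
    rw [this]
    exact dvd_add (Dvd.dvd.mul_left hZ _) dw
  have hw0 : 0 < w := by linarith
  have t2 : w * 1 ≤ w * Z2 := mul_le_mul_of_nonneg_left (by linarith) hw0.le
  have t4 : w * 1 ≤ w * Z4 := mul_le_mul_of_nonneg_left (by linarith) hw0.le
  have t12 := mul_pos hw0 q12
  have t34 := mul_pos hw0 q34
  refine ⟨w * Z1, w * Z2, w * Z3, w * Z4, key _ d1, key _ d2, key _ d3, key _ d4,
    by linarith, by linarith, by linarith, by linarith, ?_, ?_⟩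
  · have : 0 < w * (Z1 - Z3) := mul_pos hw0 q13
    intro e
    linarith
  · unfold fq
    linear_combination w ^ 4 * hid

theorem coll (A M ρ L : ℤ) (hM : 0 < M) : Coll A M ρ L := by
  by_cases hA : A = 0
  · rw [hA]; exact coll_zero M ρ L hM
  · exact coll_ne A M ρ L hA hM

end Pool.Agent.P.MP_2c7719_nt
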